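import Pool.Agent.Y755.AX.Stm

/-!
Project AX (helper755), jobs SUBD and SUBL (helper662): the subdivision of the gaps of the marked
points.
-/

set_option autoImplicit false

namespace Pool.Agent.Y662.AX.SUBD

open Pool.Agent.Y755.AX

open scoped Classical

/-- first point at or after `z` -/
lemma first {b : ℕ} {A : ℤ → Bool} (h : ∀ x : ℤ, ∃ y : ℤ, x ≤ y ∧ y < x + b ∧ A y = true)
    (z : ℤ) : ∃ v : ℤ, z ≤ v ∧ v < z + b ∧ A v = true ∧ ∀ y : ℤ, z ≤ y → y < v → A y = false := by
  obtain ⟨y0, h1, h2, h3⟩ := h z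
  obtain ⟨v, ⟨hv1, hv2⟩, hv3⟩ := Int.exists_least_of_bdd (P := fun y => z ≤ y ∧ A y = true)
    ⟨z, fun y hy => hy.1⟩ ⟨y0, h1, h3⟩
  refine ⟨v, hv1, lt_of_le_of_lt (hv3 y0 ⟨h1, h3⟩) h2, hv2, fun y hy1 hy2 => ?_⟩
  by_contra hc
  have := hv3 y ⟨hy1, by simpa using hc⟩
  omega

/-- last point at or before `z` -/
lemma last {b : ℕ} {A : ℤ → Bool} (h : ∀ x : ℤ, ∃ y : ℤ, x ≤ y ∧ y < x + b ∧ A y = true)
    (z : ℤ) : ∃ v : ℤ, v ≤ z ∧ z - b < v ∧ A v = true ∧ ∀ y : ℤ, v < y → y ≤ z → A y = false := by
  obtain ⟨y0, h1, h2, h3⟩ := h (z - b + 1)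
  obtain ⟨v, ⟨hv1, hv2⟩, hv3⟩ := Int.exists_greatest_of_bdd (P := fun y => y ≤ z ∧ A y = true)
    ⟨z, fun y hy => hy.1⟩ ⟨y0, by omega, h3⟩
  have := hv3 y0 ⟨by omega, h3⟩
  refine ⟨v, hv1, by omega, hv2, fun y hy1 hy2 => ?_⟩
  by_contra hc
  have := hv3 y ⟨hy2, by simpa using hc⟩
  omega

theorem t_SUBD : S_SUBD := by
  intro a R p ha hA hMA hM
  obtain ⟨hA1, hA2⟩ := hA
  obtain ⟨hM1, hM2⟩ := hM
  have ha' : (1 : ℤ) ≤ a := by exact_mod_cast ha
  -- the marked point `w` itself is selected
  have self : ∀ w : ℤ, (p w).2 = true → sub (8 * a) R p w = true := by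
    intro w hw
    obtain ⟨w', g1, g2, g3, g4⟩ := first hM2 (w + 1)
    have g5 := hM1 w w' (by omega) hw g3
    unfold sub
    rw [decide_eq_true_iff]
    refine ⟨hMA w hw, w, w', by omega, le_rfl, by omega, by omega, hw, g3,
      fun y h1 h2 => g4 y (by omega) h2, 0, ?_, ?_, ?_⟩
    · push_cast at g5 ⊢; linarith
    · simp
    · intro y h1 h2
      simp at h1
      omega
  constructor
  · intro x y hxy hx hy
    unfold sub at hx hy
    rw [decide_eq_true_iff] at hx hy
    obtain ⟨x1, u, w, x2, x3, x4, x5, x6, x7, x8, j, x9, x10, x11⟩ := hx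
    obtain ⟨y1, u', w', y2, y3, y4, y5, y6, y7, y8, j', y9, y10, y11⟩ := hy
    -- position of `x`
    have hxu : x < u + j * ((8 * a : ℕ) : ℤ) + 4 * a := by
      obtain ⟨z, z1, z2, z3⟩ := hA2 (u + j * ((8 * a : ℕ) : ℤ))
      by_contra hc
      push Not at hc
      have := x11 z z1 (by push_cast at z2 hc ⊢; linarith)
      simp only at z3
      rw [this] at z3
      exact absurd z3 (by simp)
    rcases lt_trichotomy u u' with huu | huu | huu
    · -- `w ≤ u'`
      have hw : w ≤ u' := by
        by_contra hc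
        push Not at hc
        have := x8 u' huu hc
        rw [this] at y6
        exact absurd y6 (by simp)
      push_cast at x9 hxu ⊢
      linarith
    · subst huu
      have hww : w = w' := by
        rcases lt_trichotomy w w' with h | h | h
        · have := y8 w (by omega) h
          rw [this] at x7
          exact absurd x7 (by simp)
        · exact h
        · have := x8 w' (by omega) h
          rw [this] at y7
          exact absurd y7 (by simp)
      subst hww
      have hjj : j < j' := by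
        by_contra hc
        push Not at hc
        have h1 : (j' : ℤ) ≤ j := by exact_mod_cast hc
        have h2 : u + (j' : ℤ) * ((8 * a : ℕ) : ℤ) ≤ x := by
          have : (j' : ℤ) * ((8 * a : ℕ) : ℤ) ≤ j * ((8 * a : ℕ) : ℤ) :=
            mul_le_mul_of_nonneg_right h1 (by positivity)
          linarith
        have := y11 x h2 hxy
        rw [this] at x1
        exact absurd x1 (by simp)
      have h1 : (j : ℤ) + 1 ≤ j' := by exact_mod_cast hjj
      have h2 : ((j : ℤ) + 1) * ((8 * a : ℕ) : ℤ) ≤ j' * ((8 * a : ℕ) : ℤ) :=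
        mul_le_mul_of_nonneg_right h1 (by positivity)
      push_cast at h2 y10 hxu ⊢
      linarith
    · exfalso
      have hw : w' ≤ u := by
        by_contra hc
        push Not at hc
        have := y8 u huu hc
        rw [this] at x6
        exact absurd x6 (by simp)
      omega
  · intro x
    obtain ⟨u, u1, u2, u3, u4⟩ := last hM2 x
    obtain ⟨w, w1, w2, w3, w4⟩ := first hM2 (x + 1)
    have huw : u < w := by omega
    have hL := hM1 u w huw u3 w3
    have hno : ∀ y : ℤ, u < y → y < w → (p y).2 = false := by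
      intro y h1 h2
      rcases le_or_gt y x with h | h
      · exact u4 y h1 h
      · exact w4 y (by omega) h2
    have hwu : w ≤ u + R := by
      obtain ⟨z, z1, z2, z3⟩ := hM2 (u + 1)
      by_contra hc
      push Not at hc
      have := hno z (by omega) (by omega)
      simp only at z3
      rw [this] at z3
      exact absurd z3 (by simp)
    -- the number of steps
    set J : ℕ := ((x - u + 8 * a - 1) / (8 * a)).toNat with hJ
    have hJn : (0 : ℤ) ≤ (x - u + 8 * a - 1) / (8 * a) := by
      apply Int.ediv_nonneg <;> omega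
    have hJc : (J : ℤ) = (x - u + 8 * a - 1) / (8 * a) := Int.toNat_of_nonneg hJn
    have hdm := Int.mul_ediv_add_emod (x - u + 8 * a - 1) (8 * a)
    have hm1 := Int.emod_nonneg (x - u + 8 * a - 1) (show (8 * (a : ℤ)) ≠ 0 by omega)
    have hm2 := Int.emod_lt_of_pos (x - u + 8 * a - 1) (show (0 : ℤ) < 8 * a by omega)
    rw [← hJc] at hdm
    -- `8 a (J - 1) < x - u ≤ 8 a J`
    have k1 : x ≤ u + J * (8 * a) := by nlinarith
    have k2 : u + J * (8 * a) < x + 8 * a := by nlinarith
    by_cases hc : ((J : ℤ) + 1) * (8 * a) ≤ w - u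
    · obtain ⟨v, v1, v2, v3, v4⟩ := first hA2 (u + J * (8 * a))
      have hvw : v < w := by push_cast at v2; nlinarith
      have huv : u ≤ v := by omega
      refine ⟨v, by linarith, by push_cast at v2 ⊢; linarith, ?_⟩
      unfold sub
      rw [decide_eq_true_iff]
      refine ⟨v3, u, w, by omega, huv, hvw, by omega, u3, w3, hno, J, ?_, ?_, ?_⟩
      · push_cast; linarith
      · push_cast; linarith
      · intro y h1 h2
        exact v4 y (by push_cast at h1; linarith) h2
    · push Not at hc
      refine ⟨w, by omega, ?_, self w w3⟩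
      push_cast
      nlinarith

theorem t_SUBL : S_SUBL := by
  intro h R
  constructor
  · intro p
    funext x
    unfold sub sh
    rw [decide_eq_decide]
    constructor
    · rintro ⟨x1, u, w, x2, x3, x4, x5, x6, x7, x8, j, x9, x10, x11⟩
      refine ⟨x1, u + 1, w + 1, by linarith, by linarith, by linarith, by linarith, x6, x7,
        fun y h1 h2 => ?_, j, by linarith, by linarith, fun y h1 h2 => ?_⟩
      · have := x8 (y - 1) (by linarith) (by linarith)
        simpa using this
      · have := x11 (y - 1) (by linarith) (by linarith)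
        simpa using this
    · rintro ⟨x1, u, w, x2, x3, x4, x5, x6, x7, x8, j, x9, x10, x11⟩
      refine ⟨x1, u - 1, w - 1, by linarith, by linarith, by linarith, by linarith,
        by simpa using x6, by simpa using x7,
        fun y h1 h2 => ?_, j, by linarith, by linarith, fun y h1 h2 => ?_⟩
      · exact x8 (y + 1) (by linarith) (by linarith)
      · exact x11 (y + 1) (by linarith) (by linarith)
  · have key : ∀ (p p' : ℤ → Bool × Bool) (x : ℤ), (∀ y : ℤ, |y - x| ≤ R → p y = p' y) →
        ((p x).1 = true ∧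
          ∃ u w : ℤ, x - R ≤ u ∧ u ≤ x ∧ x < w ∧ w ≤ x + R ∧ (p u).2 = true ∧ (p w).2 = true ∧
            (∀ y : ℤ, u < y → y < w → (p y).2 = false) ∧
            ∃ j : ℕ, ((j : ℤ) + 1) * h ≤ w - u ∧ u + j * h ≤ x ∧
              ∀ y : ℤ, u + j * h ≤ y → y < x → (p y).1 = false) →
        ((p' x).1 = true ∧
          ∃ u w : ℤ, x - R ≤ u ∧ u ≤ x ∧ x < w ∧ w ≤ x + R ∧ (p' u).2 = true ∧ (p' w).2 = true ∧
            (∀ y : ℤ, u < y → y < w → (p' y).2 = false) ∧
            ∃ j : ℕ, ((j : ℤ) + 1) * h ≤ w - u ∧ u + j * h ≤ x ∧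
              ∀ y : ℤ, u + j * h ≤ y → y < x → (p' y).1 = false) := by
      rintro p p' x hp ⟨x1, u, w, x2, x3, x4, x5, x6, x7, x8, j, x9, x10, x11⟩
      have hin : ∀ y : ℤ, x - R ≤ y → y ≤ x + R → p y = p' y := fun y h1 h2 =>
        hp y (by rw [abs_le]; constructor <;> linarith)
      have hR : (0 : ℤ) ≤ R := by positivity
      have hjh : (0 : ℤ) ≤ j * h := by positivity
      refine ⟨by rw [← hin x (by linarith) (by linarith)]; exact x1, u, w, x2, x3, x4, x5,
        by rw [← hin u x2 (by linarith)]; exact x6, by rw [← hin w (by linarith) x5]; exact x7,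
        fun y h1 h2 => ?_, j, x9, x10, fun y h1 h2 => ?_⟩
      · rw [← hin y (by linarith) (by linarith)]
        exact x8 y h1 h2
      · rw [← hin y (by linarith) (by linarith)]
        exact x11 y h1 h2
    intro p p' x hp
    unfold sub
    rw [decide_eq_decide]
    exact ⟨key p p' x hp, key p' p x (fun y hy => (hp y hy).symm)⟩

end Pool.Agent.Y662.AX.SUBD
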